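import Pool.Agent.Helper87.RAM.Defs

/-!
MP_a35923_lc, block G (helper14): the upper bound for the optimum.
-/

open MeasureTheory Set Filter Topology

namespace Pool.Agent.Helper87.RAM

/-! ### The triangle -/

lemma tri_sub_im (z : ℝ) (hz : 0 < z) : tri z ⊆ {p : ℂ | 0 ≤ p.im} := by
  refine convexHull_min ?_ (convex_halfSpace_im_ge 0)
  intro p hp
  simp only [mem_insert_iff, mem_singleton_iff] at hp
  rcases hp with rfl | rfl | rfl
  · show (0:ℝ) ≤ (0:ℂ).im; simp
  · show (0:ℝ) ≤ 0; exact le_rfl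
  · show (0:ℝ) ≤ 2 * z; positivity

lemma th_mul_exp (z : ℝ) : th z * Real.exp z = 2 * z := by
  unfold th
  rw [mul_assoc, ← Real.exp_add]
  simp

lemma th_pos {z : ℝ} (hz : 0 < z) : 0 < th z := by
  unfold th; positivity

lemma th_mul_XX (z : ℝ) : th z * XX z = z := by
  have := th_mul_exp z
  unfold XX
  linarith

lemma tri_sub_upper (z : ℝ) (hz : 0 < z) : tri z ⊆ {p : ℂ | p.im ≤ th z * p.re} := by
  have hconv : Convex ℝ {p : ℂ | p.im ≤ th z * p.re} := by
    intro p hp q hq a b ha hb _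
    simp only [mem_ofPred_eq, Complex.add_im, Complex.add_re, Complex.real_smul,
      Complex.mul_im, Complex.mul_re, Complex.ofReal_re, Complex.ofReal_im] at *
    nlinarith [mul_le_mul_of_nonneg_left hp ha, mul_le_mul_of_nonneg_left hq hb]
  refine convexHull_min ?_ hconv
  intro p hp
  simp only [mem_insert_iff, mem_singleton_iff] at hp
  rcases hp with rfl | rfl | rfl
  · show (0:ℂ).im ≤ th z * (0:ℂ).re; simp
  · show (0:ℝ) ≤ th z * Real.exp z
    rw [th_mul_exp]; positivity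
  · show (2 * z:ℝ) ≤ th z * Real.exp z
    rw [th_mul_exp]

/-- a point of the interior can be moved a little in any direction -/
lemma move_of_interior {S : Set ℂ} {p : ℂ} (hp : p ∈ interior S) (v : ℂ) :
    ∃ ε > 0, p + (ε : ℝ) • v ∈ S := by
  have hc : Tendsto (fun ε : ℝ => p + ε • v) (𝓝 0) (𝓝 (p + (0:ℝ) • v)) := by
    apply Continuous.tendsto
    fun_prop
  rw [zero_smul, add_zero] at hc
  have h1 : ∀ᶠ ε in 𝓝 (0:ℝ), p + ε • v ∈ S := hc.eventually (mem_interior_iff_mem_nhds.mp hp)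
  have h2 : ∀ᶠ ε in 𝓝[>] (0:ℝ), p + ε • v ∈ S := h1.filter_mono nhdsWithin_le_nhds
  obtain ⟨ε, h3, h4⟩ := (h2.and self_mem_nhdsWithin).exists
  exact ⟨ε, h4, h3⟩

lemma safe_iff {z : ℝ} {p : ℂ} : p ∈ Xsafe ∅ (tri z) ↔ p ∉ interior (tri z) := by
  simp [Xsafe, Xrisk, Xobs]

lemma lower_safe {z : ℝ} (hz : 0 < z) (u : ℝ) : (⟨u, 0⟩ : ℂ) ∈ Xsafe ∅ (tri z) := by
  rw [safe_iff]
  intro h
  obtain ⟨ε, hε, h1⟩ := move_of_interior h (-Complex.I)
  have h2 := tri_sub_im z hz h1
  simp at h2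
  linarith

lemma upper_safe {z : ℝ} (hz : 0 < z) (u : ℝ) : (⟨u, th z * u⟩ : ℂ) ∈ Xsafe ∅ (tri z) := by
  rw [safe_iff]
  intro h
  obtain ⟨ε, hε, h1⟩ := move_of_interior h Complex.I
  have h2 := tri_sub_upper z hz h1
  simp at h2
  linarith

theorem ss_safe {z : ℝ} (hz : 0 < z) : ss z ∈ Xsafe ∅ (tri z) := lower_safe hz _

theorem gg_safe {z : ℝ} (hz : 0 < z) : gg z ∈ Xsafe ∅ (tri z) := by
  have h := upper_safe hz (XX z)
  rw [th_mul_XX] at h
  exact h

theorem tri_nondegenerate {z : ℝ} (hz : 0 < z) :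
    AffineIndependent ℝ ![(0 : ℂ), ⟨Real.exp z, 0⟩, ⟨Real.exp z, 2 * z⟩] := by
  refine affineIndependent_of_ne_of_mem_of_mem_of_notMem
    (s := (LinearMap.ker Complex.imLm).toAffineSubspace) ?_ ?_ ?_ ?_
  · intro h
    have h1 := congrArg Complex.re h
    have h2 := Real.exp_pos z
    simp only [Complex.zero_re] at h1
    linarith
  · simp
  · simp
  · simp
    exact hz.ne'

/-! ### Unit speed -/

lemma unit_of_isom {f : ℝ → ℂ} {a b : ℝ}
    (h : ∀ u ∈ Icc a b, ∀ v ∈ Icc a b, edist (f u) (f v) = edist u v) :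
    HasUnitSpeedOn f (Icc a b) := by
  unfold HasUnitSpeedOn
  rw [hasConstantSpeedOnWith_iff_ordered]
  intro x hx y hy hxy
  have h1 : eVariationOn f (Icc a b ∩ Icc x y) = eVariationOn (id : ℝ → ℝ) (Icc a b ∩ Icc x y) := by
    unfold eVariationOn
    refine iSup_congr fun p => ?_
    refine Finset.sum_congr rfl fun i _ => ?_
    exact h _ (p.2.2.2 _).1 _ (p.2.2.2 _).1
  rw [h1]
  refine le_antisymm ?_ ?_
  · have := (monotoneOn_id (s := Icc a b) (α := ℝ)).eVariationOn_eq hx hy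
    simpa using this.le
  · have h2 := eVariationOn.edist_le (id : ℝ → ℝ) (s := Icc a b ∩ Icc x y)
      (x := y) (y := x) ⟨hy, hxy, le_rfl⟩ ⟨hx, le_rfl, hxy⟩
    refine le_trans (le_of_eq ?_) h2
    simp [edist_dist, Real.dist_eq, abs_of_nonneg (sub_nonneg.mpr hxy)]

lemma lipschitz_of_unit {f : ℝ → ℂ} {T : ℝ} (h : HasUnitSpeedOn f (Icc 0 T)) :
    LipschitzOnWith 1 f (Icc 0 T) := by
  have key : ∀ u ∈ Icc 0 T, ∀ v ∈ Icc 0 T, u ≤ v → edist (f u) (f v) ≤ edist u v := by
    intro u hu v hv huv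
    have h1 := h hu hv
    have h2 := eVariationOn.edist_le f (s := Icc 0 T ∩ Icc u v) (x := u) (y := v)
      ⟨hu, le_rfl, huv⟩ ⟨hv, huv, le_rfl⟩
    rw [h1] at h2
    refine h2.trans (le_of_eq ?_)
    rw [edist_comm]
    simp [edist_dist, Real.dist_eq, abs_of_nonneg (sub_nonneg.mpr huv)]
  intro u hu v hv
  simp only [ENNReal.coe_one, one_mul]
  rcases le_total u v with huv | huv
  · exact key u hu v hv huv
  · rw [edist_comm (f u), edist_comm u]
    exact key v hv u hu huv

/-! ### The path -/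

/-- the abscissa of the crossing -/
noncomputable def xx (z : ℝ) : ℝ := XX z - Real.log z / th z
noncomputable def T1 (z : ℝ) : ℝ := Real.log z / th z
noncomputable def T2 (z : ℝ) : ℝ := T1 z + th z * xx z
noncomputable def sq (z : ℝ) : ℝ := Real.sqrt (1 + th z ^ 2)
noncomputable def T3 (z : ℝ) : ℝ := T2 z + sq z * T1 z

/-- the path -/
noncomputable def path (z t : ℝ) : ℂ :=
  if t ≤ T1 z then ⟨XX z - t, 0⟩
  else if t ≤ T2 z then ⟨xx z, t - T1 z⟩
  else ⟨xx z + (t - T2 z) / sq z, th z * (xx z + (t - T2 z) / sq z)⟩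

lemma log_lt {z : ℝ} (hz : 1 ≤ z) : Real.log z < z := by
  have := Real.log_le_sub_one_of_pos (show 0 < z by linarith)
  linarith

lemma T1_nonneg {z : ℝ} (hz : 1 ≤ z) : 0 ≤ T1 z :=
  div_nonneg (Real.log_nonneg hz) (th_pos (by linarith)).le

lemma th_mul_T1 {z : ℝ} (hz : 1 ≤ z) : th z * T1 z = Real.log z := by
  unfold T1
  field_simp [(th_pos (show 0 < z by linarith)).ne']

lemma th_mul_xx {z : ℝ} (hz : 1 ≤ z) : th z * xx z = z - Real.log z := by
  have h1 := th_mul_T1 hz
  have h2 := th_mul_XX z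
  unfold T1 at h1
  unfold xx
  rw [mul_sub, h1, h2]

lemma T1_le_T2 {z : ℝ} (hz : 1 ≤ z) : T1 z ≤ T2 z := by
  unfold T2
  rw [th_mul_xx hz]
  linarith [log_lt hz]

lemma one_le_sq (z : ℝ) : 1 ≤ sq z := by
  unfold sq
  rw [Real.one_le_sqrt]
  nlinarith [sq_nonneg (th z)]

lemma sq_pos' (z : ℝ) : 0 < sq z := lt_of_lt_of_le one_pos (one_le_sq z)

lemma sq_le {z : ℝ} (hz : 1 ≤ z) : sq z ≤ 1 + th z := by
  have h := th_pos (show 0 < z by linarith)
  unfold sq
  rw [Real.sqrt_le_left (by linarith)]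
  nlinarith

lemma T2_le_T3 {z : ℝ} (hz : 1 ≤ z) : T2 z ≤ T3 z := by
  unfold T3
  have := mul_nonneg (sq_pos' z).le (T1_nonneg hz)
  linarith

lemma xx_add_T1 (z : ℝ) : xx z + T1 z = XX z := by
  unfold xx T1; ring

lemma path1 {z t : ℝ} (ht : t ≤ T1 z) : path z t = ⟨XX z - t, 0⟩ := by
  simp [path, ht]

lemma path2 {z t : ℝ} (h1 : T1 z ≤ t) (h2 : t ≤ T2 z) : path z t = ⟨xx z, t - T1 z⟩ := by
  rcases h1.eq_or_lt with h | h
  · rw [← h, path1 le_rfl]
    apply Complex.ext
    · simp; linarith [xx_add_T1 z]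
    · simp
  · simp [path, not_le.mpr h, h2]

lemma path3 {z t : ℝ} (hz : 1 ≤ z) (h1 : T2 z ≤ t) :
    path z t = ⟨xx z + (t - T2 z) / sq z, th z * (xx z + (t - T2 z) / sq z)⟩ := by
  rcases h1.eq_or_lt with h | h
  · rw [← h, path2 (T1_le_T2 hz) le_rfl]
    apply Complex.ext
    · simp
    · simp [T2]
  · have h' : ¬ t ≤ T1 z := not_le.mpr (lt_of_le_of_lt (T1_le_T2 hz) h)
    simp only [path, h', not_le.mpr h, if_false]

lemma edist_of_dist {p q : ℂ} {u v : ℝ} (h : dist p q = dist u v) : edist p q = edist u v := by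
  rw [edist_dist, edist_dist, h]

lemma unit_path {z : ℝ} (hz : 1 ≤ z) : HasUnitSpeedOn (path z) (Icc 0 (T3 z)) := by
  refine HasUnitSpeedOn.Icc_Icc (y := T2 z) (HasUnitSpeedOn.Icc_Icc (y := T1 z) ?_ ?_) ?_
  · refine unit_of_isom fun u hu v hv => ?_
    rw [path1 hu.2, path1 hv.2]
    apply edist_of_dist
    rw [Complex.dist_eq_re_im, Real.dist_eq]
    simp only [sub_self, ne_eq, OfNat.ofNat_ne_zero, not_false_eq_true, zero_pow, add_zero]
    rw [Real.sqrt_sq_eq_abs, show XX z - u - (XX z - v) = -(u - v) by ring, abs_neg]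
  · refine unit_of_isom fun u hu v hv => ?_
    rw [path2 hu.1 hu.2, path2 hv.1 hv.2]
    apply edist_of_dist
    rw [Complex.dist_eq_re_im, Real.dist_eq]
    simp only [sub_self, ne_eq, OfNat.ofNat_ne_zero, not_false_eq_true, zero_pow, zero_add]
    rw [Real.sqrt_sq_eq_abs, show u - T1 z - (v - T1 z) = (u - v) by ring]
  · refine unit_of_isom fun u hu v hv => ?_
    rw [path3 hz hu.1, path3 hz hv.1]
    apply edist_of_dist
    rw [Complex.dist_eq_re_im, Real.dist_eq]
    have hs := sq_pos' z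
    have h1 : sq z ^ 2 = 1 + th z ^ 2 := by
      unfold sq
      rw [Real.sq_sqrt (by positivity)]
    have h2 : (xx z + (u - T2 z) / sq z - (xx z + (v - T2 z) / sq z)) ^ 2 +
        (th z * (xx z + (u - T2 z) / sq z) - th z * (xx z + (v - T2 z) / sq z)) ^ 2
        = (u - v) ^ 2 := by
      have : (xx z + (u - T2 z) / sq z - (xx z + (v - T2 z) / sq z)) = (u - v) / sq z := by ring
      rw [← mul_sub, this, mul_pow, div_pow, h1]
      have h3 : (1 + th z ^ 2) ≠ 0 := by positivity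
      field_simp
    rw [h2, Real.sqrt_sq_eq_abs]

lemma isTraj_path {z : ℝ} (hz : 1 ≤ z) : IsTraj ∅ (tri z) (ss z) (gg z) (T3 z) (path z) where
  nonneg := (T1_nonneg hz).trans ((T1_le_T2 hz).trans (T2_le_T3 hz))
  cont := (lipschitz_of_unit (unit_path hz)).continuousOn
  speed := unit_path hz
  start := by
    rw [path1 (T1_nonneg hz)]
    simp [ss, XX]
  finish := by
    rw [path3 hz (T2_le_T3 hz)]
    have h1 : (T3 z - T2 z) / sq z = T1 z := by
      unfold T3
      field_simp [(sq_pos' z).ne']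
      ring
    rw [h1, xx_add_T1, th_mul_XX]
    rfl
  free := by
    intro t _
    by_cases h : path z t ∈ Xsafe ∅ (tri z)
    · exact Or.inl h
    · right
      simpa [Xsafe, Xobs] using h

lemma exposure_le_zero {z : ℝ} {t : ℝ} (ht : 0 ≤ t) (h : path z t ∈ Xsafe ∅ (tri z)) :
    exposure ∅ (tri z) (path z) t ≤ 0 := by
  unfold exposure
  have : t ≤ sSup {r | 0 ≤ r ∧ r ≤ t ∧ path z r ∈ Xsafe ∅ (tri z)} :=
    le_csSup ⟨t, fun r hr => hr.2.1⟩ ⟨ht, le_rfl, h⟩
  linarith

lemma exposure_le_sub {z : ℝ} {t r : ℝ} (hr : 0 ≤ r) (hrt : r ≤ t)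
    (h : path z r ∈ Xsafe ∅ (tri z)) :
    exposure ∅ (tri z) (path z) t ≤ t - r := by
  unfold exposure
  have : r ≤ sSup {r | 0 ≤ r ∧ r ≤ t ∧ path z r ∈ Xsafe ∅ (tri z)} :=
    le_csSup ⟨t, fun r hr => hr.2.1⟩ ⟨hr, hrt, h⟩
  linarith

lemma cost_nonneg {Pobs Prisk : Set ℂ} {T : ℝ} {γ : ℝ → ℂ} (hT : 0 ≤ T) :
    0 ≤ cost Pobs Prisk T γ :=
  intervalIntegral.integral_nonneg hT fun _ _ => (Real.exp_pos _).le

lemma cost_path {z : ℝ} (hz : 1 ≤ z) :
    cost ∅ (tri z) (T3 z) (path z) ≤ T1 z + Real.exp (T2 z - T1 z) + (T3 z - T2 z) := by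
  have h01 := T1_nonneg hz
  have h12 := T1_le_T2 hz
  have h23 := T2_le_T3 hz
  have hz0 : 0 < z := by linarith
  unfold cost
  by_cases hi : IntervalIntegrable (fun t => Real.exp (exposure ∅ (tri z) (path z) t))
      volume 0 (T3 z)
  · have i1 : IntervalIntegrable (fun t => Real.exp (exposure ∅ (tri z) (path z) t))
        volume 0 (T1 z) := hi.mono_set (by
          rw [uIcc_of_le h01, uIcc_of_le (h01.trans (h12.trans h23))]
          exact Icc_subset_Icc le_rfl (h12.trans h23))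
    have i2 : IntervalIntegrable (fun t => Real.exp (exposure ∅ (tri z) (path z) t))
        volume (T1 z) (T2 z) := hi.mono_set (by
          rw [uIcc_of_le h12, uIcc_of_le (h01.trans (h12.trans h23))]
          exact Icc_subset_Icc h01 h23)
    have i3 : IntervalIntegrable (fun t => Real.exp (exposure ∅ (tri z) (path z) t))
        volume (T2 z) (T3 z) := hi.mono_set (by
          rw [uIcc_of_le h23, uIcc_of_le (h01.trans (h12.trans h23))]
          exact Icc_subset_Icc (h01.trans h12) le_rfl)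
    rw [← intervalIntegral.integral_add_adjacent_intervals (i1.trans i2) i3,
      ← intervalIntegral.integral_add_adjacent_intervals i1 i2]
    have e1 : ∫ t in (0:ℝ)..T1 z, Real.exp (exposure ∅ (tri z) (path z) t) ≤ T1 z := by
      have := intervalIntegral.integral_mono_on h01 i1
        (intervalIntegrable_const (c := (1:ℝ))) (fun t ht => by
          rw [Real.exp_le_one_iff]
          exact exposure_le_zero ht.1 (by rw [path1 ht.2]; exact lower_safe hz0 _))
      simpa using this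
    have e3 : ∫ t in (T2 z)..T3 z, Real.exp (exposure ∅ (tri z) (path z) t) ≤ T3 z - T2 z := by
      have := intervalIntegral.integral_mono_on h23 i3
        (intervalIntegrable_const (c := (1:ℝ))) (fun t ht => by
          rw [Real.exp_le_one_iff]
          exact exposure_le_zero ((h01.trans h12).trans ht.1)
            (by rw [path3 hz ht.1]; exact upper_safe hz0 _))
      simpa using this
    have e2 : ∫ t in (T1 z)..T2 z, Real.exp (exposure ∅ (tri z) (path z) t)
        ≤ Real.exp (T2 z - T1 z) := by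
      have := intervalIntegral.integral_mono_on h12 i2
        (g := fun t => Real.exp (t - T1 z)) (Continuous.intervalIntegrable (by fun_prop) _ _)
        (fun t ht => by
          rw [Real.exp_le_exp]
          exact exposure_le_sub h01 ht.1 (by rw [path1 le_rfl]; exact lower_safe hz0 _))
      refine this.trans ?_
      rw [intervalIntegral.integral_comp_sub_right (fun t => Real.exp t), integral_exp]
      simp
    linarith
  · rw [intervalIntegral.integral_undef hi]
    have := Real.exp_pos (T2 z - T1 z)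
    linarith

theorem opt_upper {z : ℝ} (hz : 1 ≤ z) :
    OPT ∅ (tri z) (ss z) (gg z) * th z ≤ (2 + th z) * Real.log z + 2 := by
  have hz0 : 0 < z := by linarith
  have hth := th_pos hz0
  have h1 : OPT ∅ (tri z) (ss z) (gg z) ≤ cost ∅ (tri z) (T3 z) (path z) := by
    unfold OPT
    refine csInf_le ⟨0, ?_⟩ ⟨T3 z, path z, isTraj_path hz, rfl⟩
    rintro c ⟨T, γ, h, rfl⟩
    exact cost_nonneg h.nonneg
  have h2 := h1.trans (cost_path hz)
  have h3 : T3 z - T2 z ≤ (1 + th z) * T1 z := by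
    unfold T3
    have := mul_le_mul_of_nonneg_right (sq_le hz) (T1_nonneg hz)
    linarith
  have h4 : Real.exp (T2 z - T1 z) * th z = 2 := by
    have : T2 z - T1 z = z - Real.log z := by
      unfold T2; rw [th_mul_xx hz]; ring
    rw [this, Real.exp_sub, Real.exp_log hz0]
    have := th_mul_exp z
    field_simp
    linarith
  have h5 := th_mul_T1 hz
  have h6 := mul_le_mul_of_nonneg_right h2 hth.le
  have h7 := mul_le_mul_of_nonneg_right h3 hth.le
  nlinarith [h6, h7, h4, h5]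

end Pool.Agent.Helper87.RAM
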